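import Pool.Agent.Helper92.Ru.GoalsV

set_option autoImplicit false

open NumberField MvPolynomial IsDedekindDomain

namespace Pool.Agent.Helper58.Ru

open Pool.Agent.Helper92.Ru

/-- a finite place in terms of the valuation -/
theorem fp_val {k : Type} [Field k] [NumberField k] (w : FinitePlace k) (y : k) (hy : y ≠ 0) :
    ∃ j : ℤ, w.maximalIdeal.valuation k y = WithZero.exp j ∧ w y = (qw w : ℝ) ^ j := by
  have h0 : w.maximalIdeal.valuation k y ≠ 0 := by
    rw [Valuation.ne_zero_iff]
    exact hy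
  obtain ⟨j, hj⟩ : ∃ j : ℤ, w.maximalIdeal.valuation k y = WithZero.exp j :=
    ⟨WithZero.log (w.maximalIdeal.valuation k y), (WithZero.exp_log h0).symm⟩
  refine ⟨j, hj, ?_⟩
  have h1 : w y = (HeightOneSpectrum.adicAbv k w.maximalIdeal) y := by
    rw [← FinitePlace.norm_embedding_eq, FinitePlace.norm_embedding]
  rw [h1, HeightOneSpectrum.adicAbv_def]
  rw [WithZeroMulInt.toNNReal_neg_apply _ h0]
  have h2 : WithZero.unzero h0 = Multiplicative.ofAdd j := by
    apply WithZero.coe_injective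
    rw [WithZero.coe_unzero, hj]
    rfl
  rw [h2]
  simp [qw]

theorem plPow : PlPow := by
  intro k _ _ L _ _ _ v w hvw
  have hmem : ∀ x : 𝓞 k, x ∈ v.maximalIdeal.asIdeal ↔
      algebraMap (𝓞 k) (𝓞 L) x ∈ w.maximalIdeal.asIdeal := by
    intro x
    rw [← FinitePlace.norm_lt_one_iff_mem (K := k), ← FinitePlace.norm_lt_one_iff_mem (K := L),
      FinitePlace.norm_embedding_eq, FinitePlace.norm_embedding_eq]
    have h := hvw (algebraMap (𝓞 k) k x)
    rw [h]
    rfl
  have hlo : w.maximalIdeal.asIdeal.LiesOver v.maximalIdeal.asIdeal := by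
    constructor
    ext x
    rw [hmem x, Ideal.mem_comap]
  have : v.maximalIdeal.asIdeal.IsMaximal := v.maximalIdeal.isMaximal
  have : w.maximalIdeal.asIdeal.IsPrime := w.maximalIdeal.isPrime
  set e := v.maximalIdeal.asIdeal.ramificationIdx' w.maximalIdeal.asIdeal with he
  set f := v.maximalIdeal.asIdeal.inertiaDeg' w.maximalIdeal.asIdeal with hf
  have hq : qw w = qw v ^ f := by
    unfold qw
    exact Ideal.absNorm_eq_pow_inertiaDeg'_of_liesOver _ _ v.maximalIdeal.isPrime
      v.maximalIdeal.ne_bot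
  have he0 : e ≠ 0 := Ideal.IsDedekindDomain.ramificationIdx'_ne_zero_of_liesOver _
    v.maximalIdeal.ne_bot
  have hf0 : f ≠ 0 := Ideal.inertiaDeg'_ne_zero _ _
  have hle : e * f ≤ Module.finrank k L := by
    have hP : w.maximalIdeal.asIdeal ∈ IsDedekindDomain.primesOverFinset v.maximalIdeal.asIdeal (𝓞 L) :=
      (IsDedekindDomain.mem_primesOverFinset_iff v.maximalIdeal.ne_bot _).mpr
        ⟨w.maximalIdeal.isPrime, hlo⟩
    rw [← Ideal.sum_ramification_inertia (𝓞 L) k L (p := v.maximalIdeal.asIdeal) v.maximalIdeal.ne_bot,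
      ← Finset.add_sum_erase _ _ hP]
    exact Nat.le_add_right _ _
  constructor
  · refine ⟨e * f, Nat.one_le_iff_ne_zero.2 (Nat.mul_ne_zero he0 hf0), hle, ?_⟩
    intro c
    by_cases hc : c = 0
    · subst hc
      rw [map_zero, map_zero, map_zero, zero_pow (Nat.mul_ne_zero he0 hf0)]
    have hc' : algebraMap k L c ≠ 0 := by
      rw [Ne, FaithfulSMul.algebraMap_eq_zero_iff]
      exact hc
    obtain ⟨j, hj, hj'⟩ := fp_val v c hc
    obtain ⟨i, hi, hi'⟩ := fp_val w (algebraMap k L c) hc'
    have hval := HeightOneSpectrum.valuation_liesOver (K := k) L v.maximalIdeal w.maximalIdeal c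
    rw [hj, hi, ← WithZero.exp_nsmul] at hval
    have hij : e • j = i := by
      have := WithZero.exp_injective hval
      exact this
    rw [hj', hi', hq, ← hij]
    push_cast
    rw [← zpow_natCast, ← zpow_natCast, ← zpow_mul, ← zpow_mul]
    congr 1
    simp
    ring
  · intro y hy
    obtain ⟨i, -, hi'⟩ := fp_val w y hy
    refine ⟨(f : ℤ) * i, ?_⟩
    rw [hi', hq]
    push_cast
    rw [← zpow_natCast, ← zpow_mul]

end Pool.Agent.Helper58.Ru
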